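import Mathlib

/-!
# The space: an almost disjoint family with uncountable members, compactified by one point
-/

set_option autoImplicit false

namespace Pool.Agent.Helper332.SADSpace

open Cardinal Set Topology

/-- The points: isolated points `base b`, one point `pt i` for each member of the family, and the
point at infinity. -/
inductive Pt (B C : Type) : Type
  | base (b : B)
  | pt (i : C)
  | inf

/-- The topology of the one-point compactification of the space `B ∪ C`, in which the points of
`B` are isolated and the neighbourhoods of `i` are the sets containing `i` and almost all points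
of `X i`. -/
@[reducible] def psiTop {B C : Type} (X : C → Set B) : TopologicalSpace (Pt B C) where
  IsOpen U := (∀ i, Pt.pt i ∈ U → {b | b ∈ X i ∧ Pt.base b ∉ U}.Finite) ∧
    (Pt.inf ∈ U → ∃ J : Finset C, (∀ i, Pt.pt i ∉ U → i ∈ J) ∧
      {b | Pt.base b ∉ U ∧ ∀ i ∈ J, b ∉ X i}.Finite)
  isOpen_univ := by
    refine ⟨fun i _ => by simp, fun _ => ⟨∅, by simp, by simp⟩⟩
  isOpen_inter := by
    intro U V hU hV
    refine ⟨fun i hi => ?_, fun h => ?_⟩
    · refine ((hU.1 i hi.1).union (hV.1 i hi.2)).subset ?_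
      rintro b ⟨hb, hb'⟩
      by_cases h : Pt.base b ∈ U
      · exact Or.inr ⟨hb, fun h' => hb' ⟨h, h'⟩⟩
      · exact Or.inl ⟨hb, h⟩
    · classical
      obtain ⟨J, hJ, hJ'⟩ := hU.2 h.1
      obtain ⟨L, hL, hL'⟩ := hV.2 h.2
      refine ⟨J ∪ L, fun i hi => ?_, (hJ'.union hL').subset ?_⟩
      · by_cases h : Pt.pt i ∈ U
        · exact Finset.mem_union_right _ (hL i fun h' => hi ⟨h, h'⟩)
        · exact Finset.mem_union_left _ (hJ i h)
      · rintro b ⟨hb, hb'⟩
        by_cases h : Pt.base b ∈ U
        · exact Or.inr ⟨fun h' => hb ⟨h, h'⟩, fun i hi => hb' i (Finset.mem_union_right _ hi)⟩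
        · exact Or.inl ⟨h, fun i hi => hb' i (Finset.mem_union_left _ hi)⟩
  isOpen_sUnion := by
    intro S hS
    refine ⟨fun i hi => ?_, fun h => ?_⟩
    · obtain ⟨U, hU, hi⟩ := hi
      exact ((hS U hU).1 i hi).subset fun b hb => ⟨hb.1, fun h => hb.2 ⟨U, hU, h⟩⟩
    · obtain ⟨U, hU, h⟩ := h
      obtain ⟨J, hJ, hJ'⟩ := (hS U hU).2 h
      exact ⟨J, fun i hi => hJ i fun h' => hi ⟨U, hU, h'⟩,
        hJ'.subset fun b hb => ⟨fun h' => hb.1 ⟨U, hU, h'⟩, hb.2⟩⟩

/-- A space is scattered if every nonempty subset has a relatively isolated point. -/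
def Scattered (K : Type) [TopologicalSpace K] : Prop :=
  ∀ S : Set K, S.Nonempty → ∃ x ∈ S, ∃ U : Set K, IsOpen U ∧ U ∩ S = {x}

/-- A space is left-separated if some well-ordering of it has closed initial segments. -/
def LeftSeparated (K : Type) [TopologicalSpace K] : Prop :=
  ∃ r : K → K → Prop, IsWellOrder K r ∧ ∀ x, IsClosed {y | r y x}

/-- The set of points with the topology `psiTop X`. -/
def Psi {B C : Type} (_X : C → Set B) : Type := Pt B C

instance {B C : Type} (X : C → Set B) : TopologicalSpace (Psi X) := psiTop X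

/-- the isolated point `b` -/
def Psi.base {B C : Type} (X : C → Set B) (b : B) : Psi X := Pt.base b

/-- the point `i` -/
def Psi.pt {B C : Type} (X : C → Set B) (i : C) : Psi X := Pt.pt i

/-- the point at infinity -/
def Psi.inf {B C : Type} (X : C → Set B) : Psi X := Pt.inf

theorem psi_isOpen {B C : Type} (X : C → Set B) (U : Set (Psi X)) :
    IsOpen U ↔ (∀ i, Psi.pt X i ∈ U → {b | b ∈ X i ∧ Psi.base X b ∉ U}.Finite) ∧
    (Psi.inf X ∈ U → ∃ J : Finset C, (∀ i, Psi.pt X i ∉ U → i ∈ J) ∧
      {b | Psi.base X b ∉ U ∧ ∀ i ∈ J, b ∉ X i}.Finite) := Iff.rfl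

theorem psi_cases {B C : Type} (X : C → Set B) (x : Psi X) :
    (∃ b, x = Psi.base X b) ∨ (∃ i, x = Psi.pt X i) ∨ x = Psi.inf X := by
  cases x with
  | base b => exact Or.inl ⟨b, rfl⟩
  | pt i => exact Or.inr (Or.inl ⟨i, rfl⟩)
  | inf => exact Or.inr (Or.inr rfl)

theorem psi_base_inj {B C : Type} (X : C → Set B) (b b' : B) :
    Psi.base X b = Psi.base X b' ↔ b = b' := by
  unfold Psi.base
  exact ⟨fun h => Pt.base.inj h, fun h => h ▸ rfl⟩

theorem psi_pt_inj {B C : Type} (X : C → Set B) (i j : C) :
    Psi.pt X i = Psi.pt X j ↔ i = j := by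
  unfold Psi.pt
  exact ⟨fun h => Pt.pt.inj h, fun h => h ▸ rfl⟩

theorem psi_base_ne_pt {B C : Type} (X : C → Set B) (b : B) (i : C) :
    Psi.base X b ≠ Psi.pt X i := by
  intro h
  have h' : (Pt.base b : Pt B C) = Pt.pt i := h
  cases h'

theorem psi_base_ne_inf {B C : Type} (X : C → Set B) (b : B) :
    Psi.base X b ≠ Psi.inf X := by
  intro h
  have h' : (Pt.base b : Pt B C) = Pt.inf := h
  cases h'

theorem psi_pt_ne_inf {B C : Type} (X : C → Set B) (i : C) :
    Psi.pt X i ≠ Psi.inf X := by
  intro h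
  have h' : (Pt.pt i : Pt B C) = Pt.inf := h
  cases h'

/-- the indicator function of `{i} ∪ X i` -/
noncomputable def chi {B C : Type} (X : C → Set B) (i : C) : Psi X → ℝ :=
  Set.indicator (insert (Psi.pt X i) (Psi.base X '' X i)) (fun _ => 1)

/-! ### The almost disjoint family -/

/-- The Cantor set. -/
abbrev Cant : Type := ℕ → Bool

/-- The well-ordered set of the countable ordinals (order type `ω₁`). -/
abbrev Om : Type := (ℵ₁ : Cardinal.{0}).ord.ToType

/-- codes for finite binary sequences: length, and set of places with value `true` -/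
abbrev DD : Type := ℕ × Finset ℕ

/-- the initial segment of length `n` of `x` -/
def pre (x : Cant) (n : ℕ) : DD := (n, (Finset.range n).filter fun m => x m = true)

/-- interleaving two binary sequences -/
def comb (x y : Cant) : Cant := fun n => if n % 2 = 0 then x (n / 2) else y (n / 2)

/-- the set of isolated points -/
abbrev BB : Type := DD ⊕ (Om × ℕ × DD)

/-- the almost disjoint family made from functions `f i : ω₁ → ω` and `y i : ω₁ → 2^ω` -/
def XX (f : Cant → Om → ℕ) (y : Cant → Om → Cant) (i : Cant) : Set BB :=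
  {b | (∃ n, b = Sum.inl (pre i n)) ∨
    ∃ a n, b = Sum.inr (a, f i a, pre (comb i (y i a)) n)}

/-- the countably many isolated points at which the value at `a` can be read -/
def emb (a : Om) : DD ⊕ (ℕ × DD) → BB
  | Sum.inl d => Sum.inl d
  | Sum.inr p => Sum.inr (a, p.1, p.2)

end Pool.Agent.Helper332.SADSpace
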