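import Mathlib
import Pool.Agent.Helper332.SAD.SpaceDefs

set_option autoImplicit false

namespace Pool.Agent.Helper332.SADSpace

open Cardinal Set Topology

theorem isOpen_V {B C : Type} (X : C → Set B) (i : C) :
    IsOpen (insert (Psi.pt X i) (Psi.base X '' X i)) := by
  rw [psi_isOpen]
  refine ⟨fun j hj => ?_, fun h => ?_⟩
  · have hji : j = i := by
      rcases hj with hj | ⟨b, _, hj⟩
      · exact (psi_pt_inj X j i).1 hj
      · exact absurd hj (psi_base_ne_pt X b j)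
    subst hji
    convert Set.finite_empty
    ext b
    simp only [mem_setOf_eq, mem_empty_iff_false, iff_false, not_and, not_not]
    exact fun hb => Or.inr ⟨b, hb, rfl⟩
  · rcases h with h | ⟨b, _, h⟩
    · exact absurd h.symm (psi_pt_ne_inf X i)
    · exact absurd h (psi_base_ne_inf X b)

theorem isOpen_Vc {B C : Type} (X : C → Set B) (hX : ∀ i j, i ≠ j → (X i ∩ X j).Finite) (i : C) :
    IsOpen (insert (Psi.pt X i) (Psi.base X '' X i))ᶜ := by
  rw [psi_isOpen]
  refine ⟨fun j hj => ?_, fun _ => ⟨{i}, fun j hj => ?_, ?_⟩⟩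
  · have hji : j ≠ i := by
      rintro rfl
      exact hj (Or.inl rfl)
    refine (hX j i hji).subset ?_
    rintro b ⟨hb, hb'⟩
    refine ⟨hb, ?_⟩
    rw [mem_compl_iff, not_not] at hb'
    rcases hb' with hb' | ⟨c, hc, hb'⟩
    · exact absurd hb' (psi_base_ne_pt X b i)
    · rw [← (psi_base_inj X c b).1 hb']
      exact hc
  · rw [mem_compl_iff, not_not] at hj
    rcases hj with hj | ⟨b, _, hj⟩
    · simp [(psi_pt_inj X j i).1 hj]
    · exact absurd hj (psi_base_ne_pt X b j)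
  · convert Set.finite_empty
    ext b
    simp only [mem_setOf_eq, mem_empty_iff_false, iff_false, not_and, mem_compl_iff, not_not]
    rintro (h | ⟨c, hc, h⟩)
    · exact absurd h (psi_base_ne_pt X b i)
    · rw [(psi_base_inj X c b).1 h] at hc
      intro h'
      exact h' i (by simp) hc

theorem isOpen_base {B C : Type} (X : C → Set B) (b : B) : IsOpen ({Psi.base X b} : Set (Psi X)) := by
  rw [psi_isOpen]
  refine ⟨fun j hj => absurd hj.symm (psi_base_ne_pt X b j), fun h =>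
    absurd h.symm (psi_base_ne_inf X b)⟩

theorem isOpen_basec {B C : Type} (X : C → Set B) (b : B) :
    IsOpen ({Psi.base X b}ᶜ : Set (Psi X)) := by
  rw [psi_isOpen]
  have h : ∀ c, Psi.base X c ∉ ({Psi.base X b}ᶜ : Set (Psi X)) → c = b := fun c hc => by
    rw [mem_compl_iff, not_not] at hc
    exact (psi_base_inj X c b).1 hc
  refine ⟨fun j _ => (Set.finite_singleton b).subset fun c hc => h c hc.2, fun _ => ⟨∅, fun j hj => ?_,
    (Set.finite_singleton b).subset fun c hc => h c hc.1⟩⟩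
  rw [mem_compl_iff, not_not] at hj
  exact absurd hj.symm (psi_base_ne_pt X b j)

theorem psi_t2 {B C : Type} (X : C → Set B) (hX : ∀ i j, i ≠ j → (X i ∩ X j).Finite) :
    T2Space (Psi X) := by
  have key : ∀ x y : Psi X, x ≠ y → ∃ U : Set (Psi X), IsOpen U ∧ IsOpen Uᶜ ∧
      ((x ∈ U ∧ y ∉ U) ∨ (y ∈ U ∧ x ∉ U)) := by
    intro x y hxy
    rcases psi_cases X x with ⟨b, rfl⟩ | ⟨i, rfl⟩ | rfl
    · exact ⟨_, isOpen_base X b, isOpen_basec X b, Or.inl ⟨rfl, fun h => hxy h.symm⟩⟩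
    · rcases psi_cases X y with ⟨b, rfl⟩ | ⟨j, rfl⟩ | rfl
      · exact ⟨_, isOpen_base X b, isOpen_basec X b, Or.inr ⟨rfl, fun h => hxy h⟩⟩
      · refine ⟨_, isOpen_V X i, isOpen_Vc X hX i, Or.inl ⟨Or.inl rfl, ?_⟩⟩
        rintro (h | ⟨b, _, h⟩)
        · exact hxy h.symm
        · exact psi_base_ne_pt X b j h
      · refine ⟨_, isOpen_V X i, isOpen_Vc X hX i, Or.inl ⟨Or.inl rfl, ?_⟩⟩
        rintro (h | ⟨b, _, h⟩)
        · exact psi_pt_ne_inf X i h.symm
        · exact psi_base_ne_inf X b h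
    · rcases psi_cases X y with ⟨b, rfl⟩ | ⟨j, rfl⟩ | rfl
      · exact ⟨_, isOpen_base X b, isOpen_basec X b, Or.inr ⟨rfl, fun h => hxy h⟩⟩
      · refine ⟨_, isOpen_V X j, isOpen_Vc X hX j, Or.inr ⟨Or.inl rfl, ?_⟩⟩
        rintro (h | ⟨b, _, h⟩)
        · exact psi_pt_ne_inf X j h.symm
        · exact psi_base_ne_inf X b h
      · exact absurd rfl hxy
  refine ⟨fun x y hxy => ?_⟩
  obtain ⟨U, hU, hU', h⟩ := key x y hxy
  rcases h with h | h
  · exact ⟨U, Uᶜ, hU, hU', h.1, h.2, disjoint_compl_right⟩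
  · exact ⟨Uᶜ, U, hU', hU, h.2, h.1, disjoint_compl_left⟩

end Pool.Agent.Helper332.SADSpace
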