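import Mathlib

/-!
# The forcing notion adding `2^{ω₁}` strongly almost disjoint functions `ω₁ → ω`
-/

set_option autoImplicit false

namespace Pool.Agent.Helper332.SAD

open Cardinal Set

/-- The well-ordered set of the countable ordinals (order type `ω₁`). -/
abbrev Om : Type := (ℵ₁ : Cardinal.{0}).ord.ToType

/-- A countable condition: values `g i a` for `i` in a countable set `F` and `a < d`. -/
@[ext] structure KC (I : Type) where
  d : Om
  F : Set I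
  hF : F.Countable
  g : I → Om → ℕ
  hg : ∀ i a, g i a ≠ 0 → i ∈ F ∧ a < d

/-- A finite condition: values `s i a` for `i ∈ E`, `a ∈ A`. -/
@[ext] structure FP (I : Type) where
  E : Finset I
  A : Finset Om
  s : I → Om → ℕ
  hs : ∀ i a, s i a ≠ 0 → i ∈ E ∧ a ∈ A

/-- `KLe k' k`: the condition `k'` extends `k`, and on the new levels the values of the functions
which `k` knows are different. -/
def KLe {I : Type} (k' k : KC I) : Prop :=
  k.d ≤ k'.d ∧ k.F ⊆ k'.F ∧ (∀ i ∈ k.F, ∀ a < k.d, k'.g i a = k.g i a) ∧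
    ∀ i ∈ k.F, ∀ j ∈ k.F, i ≠ j → ∀ a, k.d ≤ a → a < k'.d → k'.g i a ≠ k'.g j a

/-- `FLe g t s`: the finite condition `t` extends `s`, and on the new levels `a` two functions
known to `s` with `g i a = g j a` get different values. -/
def FLe {I : Type} (g : I → Om → ℕ) (t s : FP I) : Prop :=
  s.E ⊆ t.E ∧ s.A ⊆ t.A ∧ (∀ i ∈ s.E, ∀ a ∈ s.A, t.s i a = s.s i a) ∧
    ∀ i ∈ s.E, ∀ j ∈ s.E, i ≠ j → ∀ a ∈ t.A, a ∉ s.A → g i a = g j a → t.s i a ≠ t.s j a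

theorem KLe.refl {I : Type} (k : KC I) : KLe k k :=
  ⟨le_rfl, subset_rfl, fun _ _ _ _ => rfl, fun _ _ _ _ _ _ h h' => absurd h' (not_lt.2 h)⟩

theorem KLe.trans {I : Type} {k₁ k₂ k₃ : KC I} (h : KLe k₁ k₂) (h' : KLe k₂ k₃) : KLe k₁ k₃ := by
  refine ⟨h'.1.trans h.1, h'.2.1.trans h.2.1, fun i hi a ha => ?_, fun i hi j hj hij a ha ha' => ?_⟩
  · rw [h.2.2.1 i (h'.2.1 hi) a (ha.trans_le h'.1), h'.2.2.1 i hi a ha]
  · rcases lt_or_ge a k₂.d with hd | hd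
    · rw [h.2.2.1 i (h'.2.1 hi) a hd, h.2.2.1 j (h'.2.1 hj) a hd]
      exact h'.2.2.2 i hi j hj hij a ha hd
    · exact h.2.2.2 i (h'.2.1 hi) j (h'.2.1 hj) hij a hd ha'

/-- The conditions: a countable one together with a finite one. -/
@[ext] structure Cond (I : Type) where
  k : KC I
  s : FP I
  hE : ∀ i ∈ s.E, i ∈ k.F
  hA : ∀ a ∈ s.A, a < k.d

instance (I : Type) : Preorder (Cond I) where
  le q p := KLe q.k p.k ∧ FLe q.k.g q.s p.s
  le_refl p := ⟨KLe.refl _, subset_rfl, subset_rfl, fun _ _ _ _ => rfl,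
    fun _ _ _ _ _ _ h h' => absurd h h'⟩
  le_trans r q p h h' := by
    refine ⟨h.1.trans h'.1, h'.2.1.trans h.2.1, h'.2.2.1.trans h.2.2.1, fun i hi a ha => ?_,
      fun i hi j hj hij a ha ha' hg => ?_⟩
    · rw [h.2.2.2.1 i (h'.2.1 hi) a (h'.2.2.1 ha), h'.2.2.2.1 i hi a ha]
    · by_cases hq : a ∈ q.s.A
      · rw [h.2.2.2.1 i (h'.2.1 hi) a hq, h.2.2.2.1 j (h'.2.1 hj) a hq]
        refine h'.2.2.2.2 i hi j hj hij a hq ha' ?_
        rw [← h.1.2.2.1 i (q.hE i (h'.2.1 hi)) a (q.hA a hq),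
          ← h.1.2.2.1 j (q.hE j (h'.2.1 hj)) a (q.hA a hq)]
        exact hg
      · exact h.2.2.2.2 i (h'.2.1 hi) j (h'.2.1 hj) hij a ha hq hg

theorem Cond.le_def {I : Type} {q p : Cond I} : q ≤ p ↔ KLe q.k p.k ∧ FLe q.k.g q.s p.s := Iff.rfl

/-- the name of the generic family of functions -/
def gen {I : Type} (i : I) (a : Om) (n : ℕ) : Set (Cond I) :=
  {q | i ∈ q.s.E ∧ a ∈ q.s.A ∧ Nat.pair (q.k.g i a) (q.s.s i a) = n}

theorem gen_down {I : Type} (i : I) (a : Om) (n : ℕ) (p : Cond I) (hp : p ∈ gen i a n)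
    (q : Cond I) (h : q ≤ p) : q ∈ gen i a n := by
  obtain ⟨h1, h2, h3⟩ := hp
  refine ⟨h.2.1 h1, h.2.2.1 h2, ?_⟩
  rw [h.1.2.2.1 i (p.hE i h1) a (p.hA a h2), h.2.2.2.1 i h1 a h2, h3]

/-- the generic functions `i`, `j` known to `q` agree only on `q.s.A` -/
theorem gen_disjoint {I : Type} {i j : I} (hij : i ≠ j) (q : Cond I) (hi : i ∈ q.s.E)
    (hj : j ∈ q.s.E) (a : Om) (ha : a ∉ q.s.A) (n : ℕ) (r : Cond I) (hr : r ≤ q)
    (h1 : r ∈ gen i a n) (h2 : r ∈ gen j a n) : False := by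
  have h3 : Nat.pair (r.k.g i a) (r.s.s i a) = Nat.pair (r.k.g j a) (r.s.s j a) :=
    h1.2.2.trans h2.2.2.symm
  obtain ⟨h4, h5⟩ := Nat.pair_eq_pair.1 h3
  exact hr.2.2.2.2 i hi j hj hij a h1.2.1 ha h4 h5

end Pool.Agent.Helper332.SAD
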