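import Mathlib
import Pool.Agent.Helper332.SAD.Defs

set_option autoImplicit false

namespace Pool.Agent.Helper332.SAD

open Cardinal Set

theorem mk_Om : #Om = ℵ₁ := by simp

theorem countable_Iio (a : Om) : (Set.Iio a).Countable := by
  have h : #(Set.Iio a) < ℵ₁ := mk_Iio_toType_ord_lt a
  have h1 : ℵ₁ ≤ Order.succ (ℵ₀ : Cardinal.{0}) := succ_aleph0.ge
  exact mk_le_aleph0_iff.1 (Order.lt_succ_iff.1 (h.trans_le h1))

/-- countable sets of countable ordinals are bounded -/
theorem exists_bound (S : Set Om) (hS : S.Countable) : ∃ a : Om, ∀ b ∈ S, b < a := by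
  by_contra hc
  push Not at hc
  have h1 : (Set.univ : Set Om) ⊆ ⋃ n ∈ S, Set.Iic n := by
    intro a _
    obtain ⟨n, hn, hn'⟩ := hc a
    exact Set.mem_biUnion hn hn'
  have h2 : (⋃ n ∈ S, Set.Iic n).Countable := by
    refine hS.biUnion fun n _ => ?_
    have : Set.Iic n = insert n (Set.Iio n) := by
      ext x
      simp [le_iff_eq_or_lt]
    rw [this]
    exact Set.Countable.insert _ (countable_Iio _)
  have h3 := h2.mono h1
  rw [Set.countable_univ_iff, ← mk_le_aleph0_iff, mk_Om] at h3
  exact absurd h3 (not_le.2 aleph0_lt_aleph_one)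

end Pool.Agent.Helper332.SAD
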