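import Mathlib
import Pool.Agent.Helper332.SAD.Basic

set_option autoImplicit false

namespace Pool.Agent.Helper332.SAD

open Cardinal Set


/-- every countable condition can be extended to any length -/
theorem exists_longer {I : Type} (k : KC I) (a : Om) : ∃ k' : KC I, KLe k' k ∧ a < k'.d := by
  classical
  have : NoMaxOrder Om := Cardinal.noMaxOrder (Cardinal.aleph0_le_aleph 1)
  obtain ⟨d', hd'⟩ := exists_gt (max k.d a)
  have h1 : k.d < d' := lt_of_le_of_lt (le_max_left _ _) hd'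
  have h2 : a < d' := lt_of_le_of_lt (le_max_right _ _) hd'
  obtain ⟨c, hc⟩ := Set.countable_iff_exists_injOn.1 k.hF
  refine ⟨⟨d', k.F, k.hF, fun i b => if i ∈ k.F ∧ b < k.d then k.g i b else
    if i ∈ k.F ∧ b < d' then c i else 0, ?_⟩, ⟨h1.le, subset_rfl, ?_, ?_⟩, h2⟩
  · intro i b hb
    by_cases h3 : i ∈ k.F ∧ b < k.d
    · exact ⟨h3.1, h3.2.trans h1⟩
    · by_cases h4 : i ∈ k.F ∧ b < d'
      · exact h4
      · simp only [if_neg h3, if_neg h4] at hb
        exact absurd rfl hb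
  · intro i hi b hb
    simp only [if_pos (show i ∈ k.F ∧ b < k.d from ⟨hi, hb⟩)]
  · intro i hi j hj hij b hb hb'
    have n1 : ¬ (i ∈ k.F ∧ b < k.d) := fun h => absurd h.2 (not_lt.2 hb)
    have n2 : ¬ (j ∈ k.F ∧ b < k.d) := fun h => absurd h.2 (not_lt.2 hb)
    simp only [if_neg n1, if_neg n2, if_pos (show i ∈ k.F ∧ b < d' from ⟨hi, hb'⟩),
      if_pos (show j ∈ k.F ∧ b < d' from ⟨hj, hb'⟩)]
    exact fun h => hij (hc hi hj h)

end Pool.Agent.Helper332.SAD
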