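import Mathlib
import Pool.Agent.Helper332.SAD.Basic
import Pool.Agent.Helper332.SAD.P_exists_longer
import Pool.Agent.Helper332.SAD.P_exists_lb
import Pool.Agent.Helper332.SAD.P_fp_ccc

set_option autoImplicit false

namespace Pool.Agent.Helper332.SAD

open Cardinal Set


/-- what is required at the stage `x` of the recursion -/
def BVGood {I V : Type} (D : V → Set (Cond I)) (p₀ : Cond I) (x : Om)
    (prev : ∀ y, y < x → Cond I × V) (v : Cond I × V) : Prop :=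
  v.1 ≤ p₀ ∧ (∀ y (h : y < x), KLe v.1.k (prev y h).1.k) ∧ x < v.1.k.d ∧ v.1 ∈ D v.2 ∧
    ∀ y (h : y < x), v.2 ≠ (prev y h).2

theorem bv_fle_refl {I : Type} (g : I → Om → ℕ) (s : FP I) : FLe g s s :=
  ⟨subset_rfl, subset_rfl, fun _ _ _ _ => rfl, fun _ _ _ _ _ _ h h' => absurd h h'⟩

/-- abstract recursion: a good sequence exists if every stage can be continued -/
theorem bv_rec {I V : Type} (D : V → Set (Cond I)) (p₀ : Cond I) (v₀ : V)
    (hstep : ∀ (x : Om) (f : Om → Cond I × V), (∀ y, y < x → BVGood D p₀ y (fun z _ => f z) (f y)) →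
      ∃ v, BVGood D p₀ x (fun z _ => f z) v) :
    ∃ f : Om → Cond I × V, ∀ x, BVGood D p₀ x (fun z _ => f z) (f x) := by
  classical
  have wf : WellFounded (fun a b : Om => a < b) := wellFounded_lt
  let f : Om → Cond I × V := wf.fix (fun x prev =>
    if h : ∃ v, BVGood D p₀ x prev v then h.choose else (p₀, v₀))
  have hf : ∀ x, f x = if h : ∃ v, BVGood D p₀ x (fun y _ => f y) v then h.choose
      else (p₀, v₀) := by
    intro x
    exact wf.fix_eq _ x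
  refine ⟨f, fun x => ?_⟩
  induction x using wf.induction with
  | _ x ih =>
    have hex := hstep x f ih
    rw [hf x, dif_pos hex]
    exact hex.choose_spec

theorem bv_step {I V : Type} (D : V → Set (Cond I)) (hD : ∀ b, ∀ p ∈ D b, ∀ q ≤ p, q ∈ D b)
    (p₀ : Cond I) (hdense : ∀ p ≤ p₀, ∃ q ≤ p, ∃ b, q ∈ D b)
    (H : ∀ p₁ : Cond I, p₁ ≤ p₀ → p₁.s = p₀.s → ∀ B : Set V, B.Countable →
      ∃ p ≤ p₁, ∀ q ≤ p, ∀ b ∈ B, q ∉ D b) (x : Om) (f : Om → Cond I × V)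
    (hf : ∀ y, y < x → BVGood D p₀ y (fun z _ => f z) (f y)) :
    ∃ v, BVGood D p₀ x (fun z _ => f z) v := by
  have hS1 : ((fun y => (f y).1.k) '' Set.Iio x).Countable := (countable_Iio x).image _
  have hle : ∀ y, y < x → KLe (f y).1.k p₀.k := fun y hy => (hf y hy).1.1
  obtain ⟨k, hk⟩ := exists_lb (insert p₀.k ((fun y => (f y).1.k) '' Set.Iio x)) (hS1.insert _)
    (Set.insert_nonempty _ _) (by
      rintro k₁ (rfl | ⟨y, hy, rfl⟩) k₂ (rfl | ⟨z, hz, rfl⟩)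
      · exact Or.inl (KLe.refl _)
      · exact Or.inr (hle z hz)
      · exact Or.inl (hle y hy)
      · rcases lt_trichotomy y z with h | h | h
        · exact Or.inr ((hf z hz).2.1 y h)
        · subst h
          exact Or.inl (KLe.refl _)
        · exact Or.inl ((hf y hy).2.1 z h))
  have hk0 : KLe k p₀.k := hk _ (Set.mem_insert _ _)
  let ps : Cond I := ⟨k, p₀.s, fun i hi => hk0.2.1 (p₀.hE i hi),
    fun a ha => (p₀.hA a ha).trans_le hk0.1⟩
  have hps : ps ≤ p₀ := ⟨hk0, bv_fle_refl _ _⟩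
  obtain ⟨p, hp, hpB⟩ := H ps hps rfl ((fun y => (f y).2) '' Set.Iio x)
    ((countable_Iio x).image _)
  obtain ⟨q, hq, b, hqb⟩ := hdense p (hp.trans hps)
  obtain ⟨k', hk', hxk'⟩ := exists_longer q.k x
  let q' : Cond I := ⟨k', q.s, fun i hi => hk'.2.1 (q.hE i hi),
    fun a ha => (q.hA a ha).trans_le hk'.1⟩
  have hq' : q' ≤ q := ⟨hk', bv_fle_refl _ _⟩
  have hq'ps : q' ≤ ps := hq'.trans (hq.trans hp)
  refine ⟨(q', b), hq'ps.trans hps, ?_, hxk', hD b q hqb q' hq', ?_⟩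
  · intro y hy
    exact KLe.trans hq'ps.1 (hk _ (Set.mem_insert_of_mem _ ⟨y, hy, rfl⟩))
  · intro y hy hby
    exact hpB q hq b ⟨y, hy, hby.symm⟩ hqb

theorem bound_value {I V : Type} (D : V → Set (Cond I)) (hD : ∀ b, ∀ p ∈ D b, ∀ q ≤ p, q ∈ D b)
    (p₀ : Cond I) (hdense : ∀ p ≤ p₀, ∃ q ≤ p, ∃ b, q ∈ D b)
    (hfun : ∀ p ≤ p₀, ∀ b b', p ∈ D b → p ∈ D b' → b = b') :
    ∃ p₁ : Cond I, p₁ ≤ p₀ ∧ p₁.s = p₀.s ∧ ∃ B : Set V, B.Countable ∧
      ∀ p ≤ p₁, ∃ q ≤ p, ∃ b ∈ B, q ∈ D b := by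
  classical
  by_contra hcon
  have H : ∀ p₁ : Cond I, p₁ ≤ p₀ → p₁.s = p₀.s → ∀ B : Set V, B.Countable →
      ∃ p ≤ p₁, ∀ q ≤ p, ∀ b ∈ B, q ∉ D b := by
    intro p₁ h1 h2 B hB
    by_contra hc
    push Not at hc
    exact hcon ⟨p₁, h1, h2, B, hB, hc⟩
  obtain ⟨_, _, v₀, _⟩ := hdense p₀ le_rfl
  obtain ⟨f, hf⟩ := bv_rec D p₀ v₀ (bv_step D hD p₀ hdense H)
  have hmono : ∀ x y, x ≤ y → KLe (f y).1.k (f x).1.k := by
    intro x y hxy
    rcases hxy.lt_or_eq with h | h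
    · exact (hf y).2.1 x h
    · rw [h]; exact KLe.refl _
  let g : I → Om → ℕ := fun i a =>
    if h : ∃ x, i ∈ (f x).1.k.F ∧ a < (f x).1.k.d then (f h.choose).1.k.g i a else 0
  have hg : ∀ x i a, i ∈ (f x).1.k.F → a < (f x).1.k.d → g i a = (f x).1.k.g i a := by
    intro x i a hi ha
    have h : ∃ x, i ∈ (f x).1.k.F ∧ a < (f x).1.k.d := ⟨x, hi, ha⟩
    have e : g i a = (f h.choose).1.k.g i a := dif_pos h
    rw [e]
    obtain ⟨h1, h2⟩ := h.choose_spec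
    rcases le_total h.choose x with h3 | h3
    · exact ((hmono _ _ h3).2.2.1 i h1 a h2).symm
    · exact (hmono _ _ h3).2.2.1 i hi a ha
  have hcount : ∀ i ∈ ⋃ x, (f x).1.k.F, ∀ j ∈ ⋃ x, (f x).1.k.F, i ≠ j →
      {a | g i a = g j a}.Countable := by
    intro i hi j hj hij
    obtain ⟨x, hx⟩ := Set.mem_iUnion.mp hi
    obtain ⟨y, hy⟩ := Set.mem_iUnion.mp hj
    have hiz : i ∈ (f (max x y)).1.k.F := (hmono _ _ (le_max_left x y)).2.1 hx
    have hjz : j ∈ (f (max x y)).1.k.F := (hmono _ _ (le_max_right x y)).2.1 hy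
    generalize max x y = z at hiz hjz
    refine (countable_Iio (f z).1.k.d).mono ?_
    intro a ha
    by_contra hza
    have hza' : (f z).1.k.d ≤ a := not_lt.mp hza
    obtain ⟨w, hw⟩ := exists_bound {z, a} ((Set.countable_singleton a).insert z)
    have hzw : z < w := hw z (Set.mem_insert _ _)
    have haw : a < w := hw a (Set.mem_insert_of_mem _ (Set.mem_singleton _))
    have hadw : a < (f w).1.k.d := haw.trans (hf w).2.2.1
    have hK := hmono z w hzw.le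
    have h1 := hK.2.2.2 i hiz j hjz hij a hza' hadw
    apply h1
    rw [← hg w i a (hK.2.1 hiz) hadw, ← hg w j a (hK.2.1 hjz) hadw]
    exact ha
  obtain ⟨x, y, hxy, t, htE, htA, hFx, hFy⟩ := fp_ccc g (⋃ x, (f x).1.k.F) hcount
    (fun x => (f x).1.s) (fun x i hi => Set.mem_iUnion.mpr ⟨x, (f x).1.hE i hi⟩)
  have hK := hmono x y hxy.le
  have hcE : ∀ i ∈ t.E, i ∈ (f y).1.k.F := by
    intro i hi
    rcases (htE i).mp hi with h | h
    · exact hK.2.1 ((f x).1.hE i h)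
    · exact (f y).1.hE i h
  have hcA : ∀ a ∈ t.A, a < (f y).1.k.d := by
    intro a ha
    rcases (htA a).mp ha with h | h
    · exact ((f x).1.hA a h).trans_le hK.1
    · exact (f y).1.hA a h
  have htrans : ∀ s : FP I, FLe g t s → FLe (f y).1.k.g t s := by
    intro s hs
    refine ⟨hs.1, hs.2.1, hs.2.2.1, fun i hi j hj hij a ha ha' hga => ?_⟩
    refine hs.2.2.2 i hi j hj hij a ha ha' ?_
    rw [hg y i a (hcE i (hs.1 hi)) (hcA a ha), hg y j a (hcE j (hs.1 hj)) (hcA a ha)]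
    exact hga
  let c : Cond I := ⟨(f y).1.k, t, hcE, hcA⟩
  have hcx : c ≤ (f x).1 := ⟨hK, htrans _ hFx⟩
  have hcy : c ≤ (f y).1 := ⟨KLe.refl _, htrans _ hFy⟩
  have h1 : c ∈ D (f x).2 := hD _ _ (hf x).2.2.2.1 c hcx
  have h2 : c ∈ D (f y).2 := hD _ _ (hf y).2.2.2.1 c hcy
  exact (hf y).2.2.2.2 x hxy (hfun c (hcy.trans (hf y).1) _ _ h2 h1)

end Pool.Agent.Helper332.SAD
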