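import Mathlib
import Pool.Agent.Helper332.SAD.Basic
import Pool.Agent.Helper332.SAD.P_exists_lb
import Pool.Agent.Helper332.SAD.P_bound_value

set_option autoImplicit false

namespace Pool.Agent.Helper332.SAD

open Cardinal Set


theorem bound_all {I V : Type} (D : ℕ → V → Set (Cond I))
    (hD : ∀ n b, ∀ p ∈ D n b, ∀ q ≤ p, q ∈ D n b)
    (p₀ : Cond I) (hdense : ∀ n, ∀ p ≤ p₀, ∃ q ≤ p, ∃ b, q ∈ D n b)
    (hfun : ∀ n, ∀ p ≤ p₀, ∀ b b', p ∈ D n b → p ∈ D n b' → b = b') :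
    ∃ p₁ ≤ p₀, ∃ B : Set V, B.Countable ∧ ∀ n, ∀ p ≤ p₁, ∃ q ≤ p, ∃ b ∈ B, q ∈ D n b := by
  have step : ∀ (n : ℕ) (p : {p : Cond I // p ≤ p₀ ∧ p.s = p₀.s}),
      ∃ p' : {p : Cond I // p ≤ p₀ ∧ p.s = p₀.s}, p'.1 ≤ p.1 ∧ ∃ B : Set V, B.Countable ∧
        ∀ r ≤ p'.1, ∃ q ≤ r, ∃ b ∈ B, q ∈ D n b := by
    intro n p
    obtain ⟨p', h1, h2, B, hB, h3⟩ := bound_value (D n) (hD n) p.1
      (fun r hr => hdense n r (hr.trans p.2.1)) (fun r hr => hfun n r (hr.trans p.2.1))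
    exact ⟨⟨p', h1.trans p.2.1, h2.trans p.2.2⟩, h1, B, hB, h3⟩
  choose nxt hnxt B hB hBd using step
  let p : ℕ → {p : Cond I // p ≤ p₀ ∧ p.s = p₀.s} :=
    fun n => Nat.rec ⟨p₀, le_rfl, rfl⟩ (fun n p => nxt n p) n
  have hp0 : (p 0).1 = p₀ := rfl
  have hps : ∀ n, p (n + 1) = nxt n (p n) := fun n => rfl
  have hanti : ∀ m n, m ≤ n → (p n).1 ≤ (p m).1 := by
    intro m n hmn
    induction hmn with
    | refl => exact le_rfl
    | step _ ih => exact (hps _ ▸ hnxt _ _).trans ih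
  obtain ⟨k, hk⟩ := exists_lb (Set.range fun n => (p n).1.k) (Set.countable_range _)
    (Set.range_nonempty _) (by
      rintro _ ⟨m, rfl⟩ _ ⟨n, rfl⟩
      rcases le_total m n with h | h
      · exact Or.inr (hanti m n h).1
      · exact Or.inl (hanti n m h).1)
  have hk' : ∀ n, KLe k (p n).1.k := fun n => hk _ ⟨n, rfl⟩
  have hk0 : KLe k p₀.k := hk' 0
  let p₁ : Cond I := ⟨k, p₀.s, fun i hi => hk0.2.1 (p₀.hE i hi),
    fun a ha => (p₀.hA a ha).trans_le hk0.1⟩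
  have hle : ∀ n, p₁ ≤ (p n).1 := by
    intro n
    refine ⟨hk' n, ?_⟩
    rw [(p n).2.2]
    exact ⟨subset_rfl, subset_rfl, fun _ _ _ _ => rfl, fun _ _ _ _ _ _ h h' => absurd h h'⟩
  refine ⟨p₁, hle 0, ⋃ n, B n (p n), Set.countable_iUnion fun n => hB n (p n), ?_⟩
  intro n r hr
  obtain ⟨q, hq, b, hb, hqb⟩ := hBd n (p n) r (hr.trans (hle (n + 1)))
  exact ⟨q, hq, b, Set.mem_iUnion.2 ⟨n, hb⟩, hqb⟩

end Pool.Agent.Helper332.SAD
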