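import Mathlib
import Pool.Agent.Helper332.SAD.Basic
import Pool.Agent.Helper332.SAD.P_exists_longer

set_option autoImplicit false

namespace Pool.Agent.Helper332.SAD

open Cardinal Set


/-- every condition can be extended so as to know the value of the function `i` at `a` -/
theorem exists_dense {I : Type} (q : Cond I) (i : I) (a : Om) :
    ∃ r ≤ q, i ∈ r.s.E ∧ a ∈ r.s.A := by
  classical
  obtain ⟨k1, h1, ha⟩ := exists_longer q.k a
  let k2 : KC I := ⟨k1.d, insert i k1.F, k1.hF.insert i, k1.g,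
    fun j b hjb => ⟨Set.mem_insert_of_mem _ (k1.hg j b hjb).1, (k1.hg j b hjb).2⟩⟩
  have h2 : KLe k2 k1 := by
    refine ⟨le_rfl, Set.subset_insert _ _, fun _ _ _ _ => rfl, ?_⟩
    intro j _ j' _ _ b hb hb'
    exact absurd hb' (not_lt.2 hb)
  have h3 : KLe k2 q.k := h2.trans h1
  let E : Finset I := insert i q.s.E
  let A : Finset Om := insert a q.s.A
  let code : I → ℕ := fun j => E.toList.idxOf j
  let t : FP I := ⟨E, A, fun j b => if j ∈ q.s.E ∧ b ∈ q.s.A then q.s.s j b else
      if j ∈ E ∧ b ∈ A then code j else 0, by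
        intro j b hjb
        by_cases hc : j ∈ q.s.E ∧ b ∈ q.s.A
        · exact ⟨Finset.mem_insert_of_mem hc.1, Finset.mem_insert_of_mem hc.2⟩
        · by_cases hc' : j ∈ E ∧ b ∈ A
          · exact hc'
          · simp only [if_neg hc, if_neg hc'] at hjb
            exact absurd rfl hjb⟩
  have h4 : FLe k2.g t q.s := by
    refine ⟨Finset.subset_insert _ _, Finset.subset_insert _ _, ?_, ?_⟩
    · intro j hj b hb
      show (if j ∈ q.s.E ∧ b ∈ q.s.A then q.s.s j b else
        if j ∈ E ∧ b ∈ A then code j else 0) = _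
      rw [if_pos ⟨hj, hb⟩]
    · intro j hj j' hj' hne b hb hb' _ heq
      have hjE : j ∈ E := Finset.mem_insert_of_mem hj
      have hjE' : j' ∈ E := Finset.mem_insert_of_mem hj'
      have hbA : b ∈ A := hb
      have e1 : t.s j b = code j := by
        show (if j ∈ q.s.E ∧ b ∈ q.s.A then q.s.s j b else
          if j ∈ E ∧ b ∈ A then code j else 0) = _
        rw [if_neg (fun h => hb' h.2), if_pos ⟨hjE, hbA⟩]
      have e2 : t.s j' b = code j' := by
        show (if j' ∈ q.s.E ∧ b ∈ q.s.A then q.s.s j' b else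
          if j' ∈ E ∧ b ∈ A then code j' else 0) = _
        rw [if_neg (fun h => hb' h.2), if_pos ⟨hjE', hbA⟩]
      rw [e1, e2] at heq
      exact hne ((List.idxOf_inj (Finset.mem_toList.2 hjE)).1 heq)
  refine ⟨⟨k2, t, ?_, ?_⟩, ⟨h3, h4⟩, Finset.mem_insert_self _ _, Finset.mem_insert_self _ _⟩
  · intro j hj
    rcases Finset.mem_insert.1 hj with rfl | hj
    · exact Set.mem_insert _ _
    · exact Set.mem_insert_of_mem _ (h1.2.1 (q.hE j hj))
  · intro b hb
    rcases Finset.mem_insert.1 hb with rfl | hb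
    · exact ha
    · exact lt_of_lt_of_le (q.hA b hb) h1.1

end Pool.Agent.Helper332.SAD
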