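import Mathlib
import Pool.Agent.Helper292.ForceCH
import Pool.Agent.Helper332.SAD.P_exists_dense
import Pool.Agent.Helper332.SAD.P_bound_all
import Pool.Agent.Helper332.SAD.P_nice_names

/-!
# The forcing notion adding `2^{ω₁}` strongly almost disjoint functions: forcing statements
-/

set_option autoImplicit false

namespace Pool.Agent.Helper332.SAD

open Cardinal Set
open Pool.Agent.Helper292.ForceCH (fnot fand fall fimp fiff fex fground meets IsFun IsOnto
  OmegaOnePreserved CHHolds mem_fex mem_fimp down_meets meets_of_dense fimp_of)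

/-- In the extension, with the index set `I`: there are functions `f i : ω₁ → ω` (`i ∈ I`) such
that for `i ≠ j` the functions `f i` and `f j` agree only at finitely many places, and a function
`e` from `I` onto the power set of `ω₁`. -/
def SADHolds (P : Type) [Preorder P] (I : Type) : Set P :=
  fex fun f : I → Om → ℕ → Set P => fex fun e : I → Om → Set P =>
    fand (fall fun i => IsFun (f i))
      (fand
        (fall fun i => fall fun j => fimp (fground (i ≠ j))
          (fex fun F : Finset Om => fall fun a => fall fun n =>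
            fimp (fground (a ∉ F)) (fnot (fand (meets (f i a n)) (meets (f j a n))))))
        (fall fun S : Om → Set P => fex fun i : I => fall fun a =>
          fiff (meets (S a)) (meets (e i a))))

theorem mem_meets_gen {I : Type} {i : I} {a : Om} {n : ℕ} {p : Cond I} (h : p ∈ gen i a n) :
    p ∈ meets (gen i a n) :=
  fun q hq => ⟨q, le_rfl, p, h, hq⟩

theorem meets_gen {I : Type} {i : I} {a : Om} {n : ℕ} {p : Cond I} (h : p ∈ meets (gen i a n)) :
    ∃ q ≤ p, q ∈ gen i a n := by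
  obtain ⟨r, hr, s, hs, hrs⟩ := h p le_rfl
  exact ⟨r, hr, gen_down i a n s hs r hrs⟩

theorem isFun_gen {I : Type} (i : I) (p : Cond I) : p ∈ IsFun (gen i) := by
  refine ⟨fun a => mem_fex.2 fun q _ => ?_, fun a n n' => mem_fimp.2 fun q _ h => ?_⟩
  · obtain ⟨r, hr, h1, h2⟩ := exists_dense q i a
    exact ⟨r, hr, _, mem_meets_gen ⟨h1, h2, rfl⟩⟩
  · obtain ⟨r, hr, h1⟩ := meets_gen h.1
    obtain ⟨t, ht, h2⟩ := meets_gen (down_meets _ _ h.2 _ hr)
    have h3 := gen_down i a n r h1 t ht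
    exact ⟨q, le_rfl, h3.2.2.symm.trans h2.2.2⟩

theorem disjoint_gen {I : Type} (i j : I) (p : Cond I) :
    p ∈ fimp (fground (i ≠ j))
      (fex fun F : Finset Om => fall fun a => fall fun n =>
        fimp (fground (a ∉ F)) (fnot (fand (meets (gen i a n)) (meets (gen j a n))))) := by
  refine mem_fimp.2 fun q _ hij => ?_
  have hij' : i ≠ j := hij
  obtain ⟨a₀, -⟩ := exists_bound ∅ countable_empty
  obtain ⟨r, hr, h1, -⟩ := exists_dense q i a₀
  obtain ⟨t, ht, h2, -⟩ := exists_dense r j a₀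
  have h1' : i ∈ t.s.E := ht.2.1 h1
  refine ⟨t, ht.trans hr, mem_fex.2 fun u hu => ⟨u, le_rfl, u.s.A, fun a n => ?_⟩⟩
  refine fimp_of fun v hv ha => ?_
  intro w hw hw'
  obtain ⟨x, hx, h3⟩ := meets_gen hw'.1
  obtain ⟨z, hz, h4⟩ := meets_gen (down_meets _ _ hw'.2 _ hx)
  exact gen_disjoint hij' u (hu.2.1 h1') (hu.2.1 h2) a ha n z
    (hz.trans (hx.trans (hw.trans hv))) (gen_down i a n x h3 z hz) h4

theorem sadHolds {I : Type} (hI : #I ^ 𝔠 = #I) (hc : 𝔠 ≤ #I) (p : Cond I) :
    p ∈ SADHolds (Cond I) I := by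
  obtain ⟨e, he⟩ := nice_names hI hc
  refine mem_fex.2 fun q _ => ⟨q, le_rfl, gen, mem_fex.2 fun q' _ => ⟨q', le_rfl, e, ?_, ?_, ?_⟩⟩
  · exact fun i => isFun_gen i q'
  · exact fun i j => disjoint_gen i j q'
  · intro S
    obtain ⟨i, hi⟩ := he (fun a => meets (S a)) (fun a p hp r hr => down_meets _ _ hp _ hr)
    refine mem_fex.2 fun r _ => ⟨r, le_rfl, i, fun a => ⟨fimp_of fun t _ ht => ?_,
      fimp_of fun t _ ht => ?_⟩⟩
    · exact (hi a t).1 fun u hu => ⟨u, le_rfl, down_meets _ _ ht _ hu⟩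
    · exact meets_of_dense ((hi a t).2 ht)

theorem omegaOnePreserved {I : Type} (p : Cond I) : p ∈ OmegaOnePreserved (Cond I) := by
  intro q _ hq
  obtain ⟨r, _, R, hR, hR'⟩ := mem_fex.1 hq q le_rfl
  obtain ⟨p₁, hp₁, B, hB, h⟩ := bound_all (fun n b => meets (R n b))
    (fun n b p hp r hr => down_meets _ _ hp _ hr) r
    (fun n p hp => by
      obtain ⟨t, ht, b, hb⟩ := mem_fex.1 (hR.1 n) p hp
      exact ⟨t, ht, b, hb⟩)
    (fun n p hp b b' h1 h2 => by
      obtain ⟨t, _, h3⟩ := mem_fimp.1 (hR.2 n b b') p hp ⟨h1, h2⟩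
      exact h3)
  obtain ⟨c, hc⟩ := exists_bound B hB
  obtain ⟨t, ht, n, hn⟩ := mem_fex.1 (hR' c) p₁ hp₁
  obtain ⟨u, hu, b, hb, hub⟩ := h n t ht
  have h1 : u ≤ r := hu.trans (ht.trans hp₁)
  obtain ⟨v, _, h2⟩ := mem_fimp.1 (hR.2 n b c) u h1 ⟨hub, down_meets _ _ hn _ hu⟩
  have h3 : b = c := h2
  exact (hc b hb).ne h3

instance (I : Type) : Nonempty (Cond I) := by
  obtain ⟨a₀, -⟩ := exists_bound ∅ countable_empty
  exact ⟨⟨⟨a₀, ∅, countable_empty, fun _ _ => 0, fun _ _ h => absurd rfl h⟩,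
    ⟨∅, ∅, fun _ _ => 0, fun _ _ h => absurd rfl h⟩, by simp, by simp⟩⟩

/-- There is a forcing notion such that all conditions force: `ω₁` is preserved and there are
`2^{ω₁}` many strongly almost disjoint functions from `ω₁` to `ω`. -/
theorem exists_forcing : ∃ (P : Type) (_ : Preorder P) (I : Type), Nonempty P ∧ ∀ p : P,
    p ∈ OmegaOnePreserved P ∧ p ∈ SADHolds P I := by
  have h : #(Set (Set ℕ)) = 2 ^ 𝔠 := by simp
  refine ⟨Cond (Set (Set ℕ)), inferInstance, Set (Set ℕ), inferInstance, fun p =>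
    ⟨omegaOnePreserved p, sadHolds ?_ ?_ p⟩⟩
  · rw [h, ← power_mul, mul_eq_self aleph0_le_continuum]
  · rw [h]
    exact (cantor 𝔠).le

end Pool.Agent.Helper332.SAD
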