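import Mathlib
import Pool.Agent.Helper332.SAD.SpaceDefs

set_option autoImplicit false

namespace Pool.Agent.Helper332.SADSpace

open Cardinal Set Topology


theorem pre_eq {x y : Cant} {n n' : ℕ} (h : pre x n = pre y n') :
    n = n' ∧ ∀ m < n, x m = y m := by
  unfold pre at h
  rw [Prod.mk.injEq] at h
  obtain ⟨rfl, h2⟩ := h
  refine ⟨rfl, fun m hm => ?_⟩
  have h3 : m ∈ (Finset.range n).filter (fun m => x m = true) ↔
      m ∈ (Finset.range n).filter (fun m => y m = true) := by rw [h2]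
  rw [Finset.mem_filter, Finset.mem_filter, Finset.mem_range] at h3
  have h4 : x m = true ↔ y m = true := ⟨fun h => (h3.1 ⟨hm, h⟩).2, fun h => (h3.2 ⟨hm, h⟩).2⟩
  cases hx : x m <;> cases hy : y m <;> simp_all

theorem XX_ad (f : Cant → Om → ℕ) (y : Cant → Om → Cant)
    (hf : ∀ i j, i ≠ j → {a | f i a = f j a}.Finite) :
    ∀ i j, i ≠ j → (XX f y i ∩ XX f y j).Finite := by
  intro i j hij
  obtain ⟨m0, hm0⟩ : ∃ m, i m ≠ j m := by
    by_contra hcon
    push Not at hcon
    exact hij (funext hcon)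
  have hfin := hf i j hij
  have h1 : ((fun n => (Sum.inl (pre i n) : BB)) '' (Set.Iic m0)).Finite :=
    (Set.finite_Iic m0).image _
  have h2 : ((fun p : Om × ℕ => (Sum.inr (p.1, f i p.1, pre (comb i (y i p.1)) p.2) : BB)) ''
      ({a | f i a = f j a} ×ˢ (Set.Iic (2 * m0)))).Finite :=
    (hfin.prod (Set.finite_Iic _)).image _
  refine (h1.union h2).subset ?_
  rintro b ⟨hb1, hb2⟩
  rcases hb1 with ⟨n, rfl⟩ | ⟨a, n, rfl⟩
  · rcases hb2 with ⟨n', h3⟩ | ⟨a', n', h3⟩
    · left
      refine ⟨n, ?_, rfl⟩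
      have h4 := pre_eq (Sum.inl.inj h3)
      rw [Set.mem_Iic]
      by_contra hcon
      exact hm0 (h4.2 m0 (by omega))
    · exact absurd h3 (by simp)
  · rcases hb2 with ⟨n', h3⟩ | ⟨a', n', h3⟩
    · exact absurd h3 (by simp)
    · right
      have h4 := Sum.inr.inj h3
      rw [Prod.mk.injEq, Prod.mk.injEq] at h4
      obtain ⟨rfl, h5, h6⟩ := h4
      refine ⟨(a, n), ⟨h5, ?_⟩, rfl⟩
      have h7 := pre_eq h6
      show n ≤ 2 * m0
      by_contra hcon
      have h8 := h7.2 (2 * m0) (by omega)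
      unfold comb at h8
      rw [if_pos (by omega), if_pos (by omega)] at h8
      have h9 : 2 * m0 / 2 = m0 := by omega
      rw [h9] at h8
      exact hm0 h8

end Pool.Agent.Helper332.SADSpace
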