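import Mathlib
import Pool.Agent.Helper332.SAD.SpaceDefs

set_option autoImplicit false

namespace Pool.Agent.Helper332.SADSpace

open Cardinal Set Topology


/-- in a left-separated regular space the closure of a countable set has size at most the
continuum -/
theorem left_closure_countable (K : Type) [TopologicalSpace K] [RegularSpace K]
    (hK : LeftSeparated K) (S : Set K) (hS : S.Countable) : #(closure S) ≤ 𝔠 := by
  obtain ⟨r, hr, hcl⟩ := hK
  have hirr : ∀ x, ¬ r x x := fun x => irrefl_of r x
  have h1 : ∀ x : K, ∃ U : Set K, IsOpen U ∧ x ∈ U ∧ ∀ y ∈ closure U, ¬ r y x := by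
    intro x
    have hV : {y | r y x}ᶜ ∈ 𝓝 x := (hcl x).isOpen_compl.mem_nhds (hirr x)
    obtain ⟨t, ht, htc, hts⟩ := exists_mem_nhds_isClosed_subset hV
    refine ⟨interior t, isOpen_interior, mem_interior_iff_mem_nhds.2 ht, ?_⟩
    intro y hy
    have : y ∈ t := closure_minimal interior_subset htc hy
    exact hts this
  choose U hUo hUx hUr using h1
  let F : closure S → Set S := fun x => {s | (s : K) ∈ U x}
  have hF : Function.Injective F := by
    intro x y hxy
    have hset : U x ∩ S = U y ∩ S := by
      ext z
      constructor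
      · rintro ⟨hz1, hz2⟩
        have : (⟨z, hz2⟩ : S) ∈ F x := hz1
        rw [hxy] at this
        exact ⟨this, hz2⟩
      · rintro ⟨hz1, hz2⟩
        have : (⟨z, hz2⟩ : S) ∈ F y := hz1
        rw [← hxy] at this
        exact ⟨this, hz2⟩
    have hx : (x : K) ∈ closure (U x ∩ S) := (hUo x).inter_closure ⟨hUx x, x.2⟩
    have hy : (y : K) ∈ closure (U y ∩ S) := (hUo y).inter_closure ⟨hUx y, y.2⟩
    have h2 : ¬ r x y := by
      rw [hset] at hx
      exact hUr y x (closure_mono inter_subset_left hx)
    have h3 : ¬ r y x := by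
      rw [← hset] at hy
      exact hUr x y (closure_mono inter_subset_left hy)
    apply Subtype.ext
    rcases trichotomous_of r (x : K) (y : K) with h | h | h
    · exact absurd h h2
    · exact h
    · exact absurd h h3
  calc #(closure S) ≤ #(Set S) := Cardinal.mk_le_of_injective hF
    _ = 2 ^ #S := Cardinal.mk_set
    _ ≤ 2 ^ ℵ₀ := Cardinal.power_le_power_left two_ne_zero hS.le_aleph0
    _ = 𝔠 := Cardinal.two_power_aleph0

end Pool.Agent.Helper332.SADSpace
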