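import Mathlib
import Pool.Agent.Helper332.SAD.SpaceDefs

set_option autoImplicit false

namespace Pool.Agent.Helper332.SADSpace

open Cardinal Set Topology


/-- a continuous function is almost constant on `X i` -/
theorem cont_pt {B C : Type} (X : C → Set B) (g : Psi X → ℝ) (hg : Continuous g) (i : C) (ε : ℝ)
    (hε : 0 < ε) : {b | b ∈ X i ∧ ε ≤ |g (Psi.base X b) - g (Psi.pt X i)|}.Finite := by
  have hU : IsOpen (g ⁻¹' (Metric.ball (g (Psi.pt X i)) ε)) := Metric.isOpen_ball.preimage hg
  have h1 := ((psi_isOpen X _).1 hU).1 i (Metric.mem_ball_self hε)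
  refine h1.subset ?_
  rintro b ⟨hb, hb'⟩
  refine ⟨hb, fun h => ?_⟩
  have h2 : dist (g (Psi.base X b)) (g (Psi.pt X i)) < ε := h
  rw [Real.dist_eq] at h2
  exact absurd hb' (not_le.2 h2)

end Pool.Agent.Helper332.SADSpace
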