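import Mathlib
import Pool.Agent.Helper332.SAD.SpaceDefs

set_option autoImplicit false

namespace Pool.Agent.Helper332.SADSpace

open Cardinal Set Topology


theorem cube_not_metrizable : ¬ TopologicalSpace.MetrizableSpace (Om → Set.Icc (0 : ℝ) 1) := by
  classical
  intro hmet
  have hfc : FirstCountableTopology (Om → Set.Icc (0 : ℝ) 1) := by
    letI := TopologicalSpace.metrizableSpaceMetric (Om → Set.Icc (0 : ℝ) 1)
    infer_instance
  set x : Om → Set.Icc (0 : ℝ) 1 := fun _ => 0 with hx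
  obtain ⟨V, hV⟩ := (𝓝 x).exists_antitone_basis
  have h1 : ∀ n, ∃ I : Set Om, I.Finite ∧ ∃ t : Om → Set (Set.Icc (0 : ℝ) 1),
      (∀ i, t i ∈ 𝓝 (x i)) ∧ I.pi t ⊆ V n := by
    intro n
    have h2 : V n ∈ 𝓝 x := hV.1.mem_of_mem trivial
    rw [nhds_pi] at h2
    exact Filter.mem_pi.1 h2
  choose I hI t ht hIt using h1
  have hne : ∃ a, a ∉ ⋃ n, I n := by
    by_contra hcon
    push Not at hcon
    have h2 : (Set.univ : Set Om).Countable :=
      (Set.countable_iUnion fun n => (hI n).countable).mono fun a _ => hcon a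
    have h3 : Cardinal.mk Om ≤ ℵ₀ := by
      rw [← Cardinal.mk_univ]
      exact Cardinal.le_aleph0_iff_set_countable.2 h2
    rw [Cardinal.mk_ord_toType] at h3
    exact absurd h3 (not_le.2 Cardinal.aleph0_lt_aleph_one)
  obtain ⟨a, ha⟩ := hne
  have hW : {z : Om → Set.Icc (0 : ℝ) 1 | ((z a : Set.Icc (0 : ℝ) 1) : ℝ) < 1 / 2} ∈ 𝓝 x := by
    refine IsOpen.mem_nhds ?_ ?_
    · exact isOpen_lt (continuous_subtype_val.comp (continuous_apply a)) continuous_const
    · show ((x a : Set.Icc (0 : ℝ) 1) : ℝ) < 1 / 2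
      simp [hx]
  obtain ⟨n, -, hn⟩ := hV.1.mem_iff.1 hW
  have hz : Function.update x a 1 ∈ V n := by
    refine hIt n fun i hi => ?_
    have hia : i ≠ a := by
      rintro rfl
      exact ha (Set.mem_iUnion.2 ⟨n, hi⟩)
    rw [Function.update_of_ne hia]
    exact mem_of_mem_nhds (ht n i)
  have h4 := hn hz
  simp only [Set.mem_setOf_eq, Function.update_self] at h4
  norm_num at h4

end Pool.Agent.Helper332.SADSpace
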