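import Mathlib
import Pool.Agent.Helper332.SAD.SpaceDefs

set_option autoImplicit false

namespace Pool.Agent.Helper332.SADSpace

open Cardinal Set Topology


theorem decode_pre_inj {x x' : Cant} {n n' : ℕ} (h : pre x n = pre x' n') :
    n = n' ∧ ∀ m < n, x m = x' m := by
  have h1 : n = n' := congrArg Prod.fst h
  subst h1
  refine ⟨rfl, fun m hm => ?_⟩
  have h2 : (Finset.range n).filter (fun m => x m = true) =
    (Finset.range n).filter (fun m => x' m = true) := congrArg Prod.snd h
  have h3 : m ∈ (Finset.range n).filter (fun m => x m = true) ↔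
    m ∈ (Finset.range n).filter (fun m => x' m = true) := by rw [h2]
  simp only [Finset.mem_filter, Finset.mem_range, hm, true_and] at h3
  cases hx : x m <;> cases hx' : x' m <;> simp_all

theorem decode_nhds (v : Cant → ℝ) (hv : Continuous v) (c : Cant) (ε : ℝ) (hε : 0 < ε) :
    ∃ N : ℕ, ∀ z : Cant, (∀ m < N, z m = c m) → |v z - v c| < ε := by
  have hU : IsOpen {z | |v z - v c| < ε} :=
    isOpen_lt (by fun_prop) continuous_const
  obtain ⟨I, u, hu, hI⟩ := isOpen_pi_iff.1 hU c (by simp [hε])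
  refine ⟨I.sup id + 1, fun z hz => ?_⟩
  apply hI
  intro m hm
  have hm' : m < I.sup id + 1 := Nat.lt_succ_of_le (Finset.le_sup (f := id) hm)
  rw [hz m hm']
  exact (hu m hm).2

/-- `y i a` depends continuously on the trace of `chi i` -/
theorem decode (f : Cant → Om → ℕ) (y : Cant → Om → Cant) (a : Om) (v : Cant → ℝ)
    (hv : Continuous v) (i : Cant) (ε : ℝ) (hε : 0 < ε) :
    ∃ F : Finset (DD ⊕ (ℕ × DD)), ∀ j,
      (∀ t ∈ F, emb a t ∈ XX f y i ↔ emb a t ∈ XX f y j) → |v (y j a) - v (y i a)| < ε := by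
  obtain ⟨N, hN⟩ := decode_nhds v hv (y i a) ε hε
  refine ⟨{Sum.inr (f i a, pre (comb i (y i a)) (2 * N + 2))}, fun j hj => ?_⟩
  have h1 := (hj _ (Finset.mem_singleton_self _)).1 (Or.inr ⟨a, 2 * N + 2, rfl⟩)
  apply hN
  intro m hm
  rcases h1 with ⟨n, h⟩ | ⟨a', n, h⟩
  · exact absurd h (by simp [emb])
  · have h2 : (a, f i a, pre (comb i (y i a)) (2 * N + 2)) =
      (a', f j a', pre (comb j (y j a')) n) := Sum.inr.inj h
    have ha : a = a' := congrArg Prod.fst h2
    subst ha
    have h3 : pre (comb i (y i a)) (2 * N + 2) = pre (comb j (y j a)) n :=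
      congrArg (fun q => q.2.2) h2
    have h4 := (decode_pre_inj h3).2 (2 * m + 1) (by omega)
    have e1 : ¬ (2 * m + 1) % 2 = 0 := by omega
    have e2 : (2 * m + 1) / 2 = m := by omega
    simp only [comb, if_neg e1, e2] at h4
    exact h4.symm

end Pool.Agent.Helper332.SADSpace
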